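import Pool.Agent.H88.YT.Main

/-!
# The Yau–Tian–Donaldson conjecture for free quotients of products

The equivariant form of Q1 for an action of a finite group `Γ` on a polarized manifold `(M, L)` says:
if `M` has no `Γ`-invariant vector fields, then `c_1(L)` contains a `Γ`-invariant cscK metric
precisely when all `Γ`-equivariant test configurations of positive norm have positive Futaki
invariant. Here `M` may have vector fields, and `Γ` may have fixed points.

* If `Γ` acts freely, the equivariant form for `(M, L)` is equivalent to Q1 for `(M, L) / Γ`.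
* The equivariant form passes to products with the diagonal action, and to smaller groups.
* Q1 for `(M, L)` implies Q1 for all finite étale coverings of `M`.
* Consequence: Q1 holds for all free quotients `(M₁ × ⋯ × M_r) / Γ` where, for each `i`, either
  `c_1(M_i) = λ c_1(L_i)` or `Γ` acts freely on `M_i` and Q1 holds for `(M_i, L_i) / Γ`; for instance
  for the bundles with finite structure group and a Fano manifold `F`, polarized by `-K_F`, as fibre
  over a base for which Q1 holds (the fibre `F` need not be K-stable or without vector fields).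
-/

set_option autoImplicit false

open Pool.Agent.H88.YT

/-- (1) If the finite group `Γ` acts freely on `X`, with quotient `Y`, then Q1 for `Y` is equivalent
to the equivariant form of Q1 for `X`. (2) The equivariant form of Q1 for the two factors implies the
one for the product. (3) Q1 for `X` implies Q1 for every finite étale covering of `X`. (4) The
equivariant form of Q1 for an action of `Γ` implies the one for all actions through homomorphisms
`Δ → Γ`, and Q1. (5) The equivariant form of Q1 holds for all actions in the class `Built`, and Q1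
holds for their free quotients. (6) Q1 holds for bundles with finite structure group and fibre
`F` with `c_1(F) = λ c_1(L_F)` over a base for which Q1 holds. -/
theorem Pool.Agent.Results.MP_9dce12_gt.FreeQuotients.result (T : Theory) (hT : Facts T) :
    (∀ (Γ : Type) [Group Γ] [Finite Γ] (X Y : T.Pol) (a : T.Act Γ X), T.Quot a Y →
      (Q1 T Y ↔ EQ1 a)) ∧
    (∀ (Γ : Type) [Group Γ] [Finite Γ] (X Y : T.Pol) (a : T.Act Γ X) (b : T.Act Γ Y),
      EQ1 a → EQ1 b → EQ1 (T.prodAct a b)) ∧
    (∀ (X X' : T.Pol) (e : ℕ), T.Cover X X' e → Q1 T X → Q1 T X') ∧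
    (∀ (Γ Δ : Type) [Group Γ] [Finite Γ] [Group Δ] [Finite Δ] (X : T.Pol) (a : T.Act Γ X)
      (φ : Δ →* Γ), EQ1 a → EQ1 (T.comp a φ) ∧ Q1 T X) ∧
    (∀ (Γ : Type) [Group Γ] [Finite Γ] (X : T.Pol) (a : T.Act Γ X), Built T Γ a →
      EQ1 a ∧ ∀ Y, T.Quot a Y → Q1 T Y) ∧
    ∀ (Γ : Type) [Group Γ] [Finite Γ] (F X B M : T.Pol) (a : T.Act Γ F) (b : T.Act Γ X),
      T.Einstein F → T.Quot b B → T.Quot (T.prodAct a b) M → Q1 T B → Q1 T M :=
  ⟨fun _ _ _ _ _ a hq => q1_quot hT a hq, fun _ _ _ _ _ a b ha hb => eq1_prod hT a b ha hb,
    fun _ _ _ hc h => q1_cover hT hc h,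
    fun _ _ _ _ _ _ _ a φ h => ⟨eq1_comp hT a φ h, q1_of_eq1 hT a h⟩,
    fun _ _ _ _ a h => ⟨eq1_built hT a h, fun _ hq => (q1_quot hT a hq).2 (eq1_built hT a h)⟩,
    fun _ _ _ _ _ B _ a b hF hb hM hB => (q1_quot hT _ hM).2
      (eq1_built hT _ (Built.prod a b (Built.einstein a hF) (Built.free b B hb hB)))⟩
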