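import Pool.Agent.H88.YU.Main

/-!
# The Yau–Tian–Donaldson conjecture for toric surfaces with group actions and for bundles of toric
surfaces

Toric surfaces have vector fields, so that Q1 says nothing about them; but they occur as fibres of
manifolds without vector fields. Let `Γ` be a finite group which acts on a polarized toric surface
`(F, L)` and normalizes the torus, such that `F` has no `Γ`-invariant vector field.

* For lattice polytopes of any dimension with a finite group of automorphisms we prove that
  K-polystability follows from K-polystability for invariant functions.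
* If all `Γ`-equivariant test configurations of `(F, L)` of positive norm have positive Futaki
  invariant, then `c_1(L)` contains a `Γ`-invariant cscK metric.
* Q1 holds for all free quotients `(F₁ × ⋯ × F_r) / Γ`, where the factors are polarized toric
  surfaces with such actions, polarized manifolds with `c_1 = λ c_1(L)`, or coverings with group `Γ`
  of polarized manifolds for which Q1 holds.
* Q1 holds for the bundles with finite structure group and a toric surface as fibre over a base for
  which Q1 holds, with all polarizations which are locally products.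
-/

set_option autoImplicit false

open Pool.Agent.H88.YT Pool.Agent.H88.YU

/-- (1) A lattice polytope `K` with interior points, in any dimension, is K-polystable if and only if
this holds for the functions which are invariant under a finite group of automorphisms. (2) The
equivariant form `EQ1` of Q1 holds for all actions of finite groups on polarized toric surfaces which
normalize the torus. (3) It holds for all actions in the class `Built`, and Q1 holds for their free
quotients. (4) Q1 holds for bundles with finite structure group and toric surfaces as fibres over a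
base for which Q1 holds. -/
theorem Pool.Agent.Results.MP_9dce12_gt.ToricSurfaceFibres.result :
    (∀ (n : ℕ) (K : Set (Fin n → ℝ)) (Γ : Type) [Group Γ] [Finite Γ]
      (φ : Γ →* Equiv.Perm (Fin n → ℝ)), IsLatticePolytope K → (interior K).Nonempty →
      (∀ g, IsAut K (φ g)) → (PolyStable K ↔
        (∀ f, IsPL f → (∀ g, ∀ x ∈ K, f (φ g x) = f x) → ¬ AffineOn K f → Pos K f) ∧
        ∀ f, IsPL f → (∀ g, ∀ x ∈ K, f (φ g x) = f x) → AffineOn K f → Zero K f)) ∧
    ∀ T : ToricTheory, ToricFacts T →
      (∀ (Γ : Type) [Group Γ] [Finite Γ] (X : T.Pol) (a : T.Act Γ X) (K : Set (Fin 2 → ℝ))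
        (φ : Γ →* Equiv.Perm (Fin 2 → ℝ)), T.Toric a K φ → EQ1 a) ∧
      (∀ (Γ : Type) [Group Γ] [Finite Γ] (X : T.Pol) (a : T.Act Γ X), Built T Γ a →
        EQ1 a ∧ ∀ Y, T.Quot a Y → Q1 T.toTheory Y) ∧
      ∀ (Γ : Type) [Group Γ] [Finite Γ] (F X B M : T.Pol) (a : T.Act Γ F) (b : T.Act Γ X)
        (K : Set (Fin 2 → ℝ)) (φ : Γ →* Equiv.Perm (Fin 2 → ℝ)), T.Toric a K φ → T.Quot b B →
        T.Quot (T.prodAct a b) M → Q1 T.toTheory B → Q1 T.toTheory M := by
  refine ⟨fun n K Γ _ _ φ hK hi hφ => ?_, fun T hT => ⟨fun Γ _ _ X a K φ h => eq1_toric hT a h,
    fun Γ _ _ X a h => ⟨eq1_built hT a h,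
      fun Y hq => (q1_quot hT.toFacts a hq).2 (eq1_built hT a h)⟩,
    fun Γ _ _ F X B M a b K φ h hb hM hB => (q1_quot hT.toFacts _ hM).2
      (eq1_built hT _ (Pool.Agent.H88.YU.Built.prod a b (Pool.Agent.H88.YU.Built.toric a K φ h)
        (Pool.Agent.H88.YU.Built.free b B hb hB)))⟩⟩
  have := Fintype.ofFinite Γ
  exact polyStable_iff hK hi hφ
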